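import Pool.Agent.Run7.h347.OW.Iface

set_option autoImplicit false

open Set Filter Topology Pool.Agent.Results.MP_76989b_gt.NotFrechetUrysohn

namespace Run7.h662.OW

open Pool.Agent.Run7.h347.OW

theorem t_SO {X : Type*} [TopologicalSpace X] : S_SO X := by
  intro f g hg x hf V hV hx G hG hxG
  obtain ⟨ε, hε, hball⟩ := Metric.isOpen_iff.1 hV _ hx
  have h1 : ∀ᶠ y in 𝓝 x, |f y - f x| < ε / 2 := by
    have := Metric.continuousAt_iff'.1 hf (ε / 2) (by linarith)
    filter_upwards [this] with y hy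
    rwa [Real.dist_eq] at hy
  obtain ⟨N, hN1, hN2, hN3⟩ := eventually_nhds_iff.1 (h1.and (hG.mem_nhds hxG))
  obtain ⟨W, hW1, hW2, hW3, hW4⟩ := hg x N hN2 hN3 (Metric.ball (g x) (ε / 2))
    Metric.isOpen_ball (Metric.mem_ball_self (by linarith))
  refine ⟨W, hW1, hW2, fun y hy => (hN1 y (hW3 hy)).2, fun y hy => ?_⟩
  apply hball
  rw [Metric.mem_ball, Real.dist_eq]
  have h2 := (hN1 y (hW3 hy)).1
  have h3 : |g y - g x| < ε / 2 := by
    have h4 : g y ∈ Metric.ball (g x) (ε / 2) := hW4 (mem_image_of_mem g hy)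
    rwa [Metric.mem_ball, Real.dist_eq] at h4
  have h5 := abs_abs_sub_abs_le_abs_sub (g y - f y) (g x - f x)
  have h6 : |(g y - f y) - (g x - f x)| ≤ |g y - g x| + |f y - f x| := by
    have h7 : (g y - f y) - (g x - f x) = (g y - g x) - (f y - f x) := by ring
    rw [h7]
    exact abs_sub _ _
  linarith

end Run7.h662.OW
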